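import Pool.Agent.H18.HIT.Targets

set_option autoImplicit false

open Polynomial
open Pool.Agent.H18.HIT

namespace Pool.Agent.H12.HIT

/-- HIQ -/
def T_HIQ : Prop :=
  ∀ Ψ : Polynomial (Polynomial ℚ), Ψ.Monic → Irreducible Ψ → ∀ M : ℕ,
    ∃ t : ℤ, (M : ℤ) < |t| ∧ Irreducible (Ψ.map (Polynomial.evalRingHom ((t : ℤ) : ℚ)))

theorem irreducible_scaleRoots {R : Type*} [CommRing R] [IsDomain R] {p : R[X]} (hp : p.Monic)
    (u : Rˣ) (h : Irreducible p) : Irreducible (scaleRoots p (u : R)) := by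
  have hm : (scaleRoots p (u : R)).Monic := (monic_scaleRoots_iff _).mpr hp
  rw [hm.irreducible_iff_natDegree]
  rw [hp.irreducible_iff_natDegree] at h
  have hback : scaleRoots (scaleRoots p (u : R)) ((u⁻¹ : Rˣ) : R) = p := by
    rw [← scaleRoots_mul, Units.mul_inv, scaleRoots_one]
  constructor
  · intro h1
    apply h.1
    rw [← hback, h1, one_scaleRoots]
  · intro f g hf hg hfg
    have h2 := h.2 (scaleRoots f ((u⁻¹ : Rˣ) : R)) (scaleRoots g ((u⁻¹ : Rˣ) : R))
      ((monic_scaleRoots_iff _).mpr hf) ((monic_scaleRoots_iff _).mpr hg) (by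
        rw [← mul_scaleRoots_of_noZeroDivisors, hfg, hback])
    simpa only [natDegree_scaleRoots] using h2

theorem irreducible_of_scaleRoots {R : Type*} [CommRing R] [IsDomain R] {p : R[X]}
    (hp : p.Monic) (u : Rˣ) (h : Irreducible (scaleRoots p (u : R))) : Irreducible p := by
  have h1 := irreducible_scaleRoots ((monic_scaleRoots_iff _).mpr hp) u⁻¹ h
  rwa [← scaleRoots_mul, Units.mul_inv, scaleRoots_one] at h1

theorem exists_den (Ψ : Polynomial (Polynomial ℚ)) :
    ∃ s : ℕ, s ≠ 0 ∧ ∀ i j, ∃ m : ℤ, (Ψ.coeff i).coeff j * s = m := by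
  classical
  refine ⟨∏ i ∈ Finset.range (Ψ.natDegree + 1), ∏ j ∈ Finset.range ((Ψ.coeff i).natDegree + 1),
    ((Ψ.coeff i).coeff j).den, ?_, fun i j => ?_⟩
  · refine Finset.prod_ne_zero_iff.mpr fun i _ => Finset.prod_ne_zero_iff.mpr fun j _ => ?_
    exact ((Ψ.coeff i).coeff j).den_nz
  · by_cases h0 : (Ψ.coeff i).coeff j = 0
    · exact ⟨0, by rw [h0]; simp⟩
    have hi : i ∈ Finset.range (Ψ.natDegree + 1) := by
      rw [Finset.mem_range]
      by_contra hlt
      have h1 : Ψ.coeff i = 0 := coeff_eq_zero_of_natDegree_lt (by omega)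
      rw [h1] at h0
      simp at h0
    have hj : j ∈ Finset.range ((Ψ.coeff i).natDegree + 1) := by
      rw [Finset.mem_range]
      by_contra hlt
      exact h0 (coeff_eq_zero_of_natDegree_lt (by omega))
    have hd : ((Ψ.coeff i).coeff j).den ∣ ∏ i ∈ Finset.range (Ψ.natDegree + 1),
        ∏ j ∈ Finset.range ((Ψ.coeff i).natDegree + 1), ((Ψ.coeff i).coeff j).den :=
      (Finset.dvd_prod_of_mem (fun j => ((Ψ.coeff i).coeff j).den) hj).trans
        (Finset.dvd_prod_of_mem (fun i => ∏ j ∈ Finset.range ((Ψ.coeff i).natDegree + 1),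
          ((Ψ.coeff i).coeff j).den) hi)
    obtain ⟨r, hr⟩ := hd
    refine ⟨((Ψ.coeff i).coeff j).num * r, ?_⟩
    rw [hr]
    push_cast
    rw [← mul_assoc, Rat.mul_den_eq_num]

theorem hiq (hHIZ : T_HIZ) : T_HIQ := by
  classical
  intro Ψ hm hirr M
  obtain ⟨s, hs, hden⟩ := exists_den Ψ
  have hsu : IsUnit (C (s : ℚ)) := isUnit_C.mpr (IsUnit.mk0 _ (by exact_mod_cast hs))
  obtain ⟨u, hu⟩ := hsu
  have hlift : scaleRoots Ψ (C (s : ℚ)) ∈ lifts (mapRingHom (Int.castRingHom ℚ)) := by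
    rw [lifts_iff_coeff_lifts]
    intro i
    have hone : ∀ i, Ψ.coeff i * C (s : ℚ) ∈ Set.range (mapRingHom (Int.castRingHom ℚ)) := by
      intro i
      have : Ψ.coeff i * C (s : ℚ) ∈ lifts (Int.castRingHom ℚ) := by
        rw [lifts_iff_coeff_lifts]
        intro j
        obtain ⟨m, hm⟩ := hden i j
        refine ⟨m, ?_⟩
        rw [coeff_mul_C, hm]
        rfl
      rw [mem_lifts] at this
      exact this
    have hC : C (s : ℚ) ∈ (mapRingHom (Int.castRingHom ℚ)).range := by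
      refine ⟨C (s : ℤ), ?_⟩
      simp
    rw [coeff_scaleRoots]
    rcases lt_trichotomy i Ψ.natDegree with h | h | h
    · obtain ⟨k, hk⟩ : ∃ k, Ψ.natDegree - i = k + 1 := ⟨Ψ.natDegree - i - 1, by omega⟩
      rw [hk, pow_succ', ← mul_assoc]
      have h2 : Ψ.coeff i * C (s : ℚ) * C (s : ℚ) ^ k ∈
          (mapRingHom (Int.castRingHom ℚ)).range := mul_mem (hone i) (pow_mem hC k)
      exact h2
    · rw [h, Nat.sub_self, pow_zero, mul_one]
      have : Ψ.coeff Ψ.natDegree = 1 := hm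
      rw [this]
      exact ⟨1, map_one _⟩
    · rw [coeff_eq_zero_of_natDegree_lt h, zero_mul]
      exact ⟨0, map_zero _⟩
  have hsm : (scaleRoots Ψ (C (s : ℚ))).Monic := (monic_scaleRoots_iff _).mpr hm
  obtain ⟨Z, hZ, -, hZm⟩ := lifts_and_natDegree_eq_and_monic hlift hsm
  have hZi : Irreducible Z := by
    apply Monic.irreducible_of_irreducible_map (mapRingHom (Int.castRingHom ℚ)) Z hZm
    rw [hZ, ← hu]
    exact irreducible_scaleRoots hm u hirr
  obtain ⟨t, htM, ht⟩ := hHIZ Z hZm hZi M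
  refine ⟨t, htM, ?_⟩
  have h1 : Irreducible ((Z.map (evalRingHom t)).map (algebraMap ℤ ℚ)) :=
    ((hZm.map (evalRingHom t)).irreducible_iff_irreducible_map_fraction_map).mp ht
  have h2 : (Z.map (evalRingHom t)).map (algebraMap ℤ ℚ) =
      scaleRoots (Ψ.map (evalRingHom (t : ℚ))) (s : ℚ) := by
    have h3 : scaleRoots (Ψ.map (evalRingHom (t : ℚ))) (s : ℚ) =
        (scaleRoots Ψ (C (s : ℚ))).map (evalRingHom (t : ℚ)) := by
      rw [map_scaleRoots _ _ _ (by rw [hm.leadingCoeff, map_one]; exact one_ne_zero)]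
      simp
    rw [h3, ← hZ, Polynomial.map_map, Polynomial.map_map]
    congr 1
    apply Polynomial.ringHom_ext
    · intro a
      simp
    · simp
  rw [h2] at h1
  obtain ⟨w, hw⟩ : IsUnit (s : ℚ) := IsUnit.mk0 _ (by exact_mod_cast hs)
  rw [← hw] at h1
  exact irreducible_of_scaleRoots (hm.map _) w h1

instance instNormalRat : Normal ℚ Qb :=
  have : IsAlgClosure ℚ Qb := ⟨inferInstance, inferInstance⟩
  IsAlgClosure.normal ℚ Qb

instance instGaloisRat : IsGalois ℚ Qb := ⟨⟩

theorem prod_dvd_of_irreducible {R : Type*} [CommRing R] [IsDomain R] [UniqueFactorizationMonoid R]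
    {ι : Type*} (s : Finset ι) (P : ι → R[X]) (hm : ∀ i ∈ s, (P i).Monic)
    (hirr : ∀ i ∈ s, Irreducible (P i)) (hinj : ∀ i ∈ s, ∀ j ∈ s, P i = P j → i = j)
    (f : R[X]) (hdvd : ∀ i ∈ s, P i ∣ f) : ∏ i ∈ s, P i ∣ f := by
  classical
  induction s using Finset.induction_on with
  | empty => simp
  | insert a s ha ih =>
    obtain ⟨g, hg⟩ := ih (fun i hi => hm i (Finset.mem_insert_of_mem hi))
      (fun i hi => hirr i (Finset.mem_insert_of_mem hi))
      (fun i hi j hj => hinj i (Finset.mem_insert_of_mem hi) j (Finset.mem_insert_of_mem hj))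
      (fun i hi => hdvd i (Finset.mem_insert_of_mem hi))
    have hpa : Prime (P a) := (hirr a (Finset.mem_insert_self a s)).prime
    have h1 : P a ∣ (∏ i ∈ s, P i) * g := hg ▸ hdvd a (Finset.mem_insert_self a s)
    rcases hpa.dvd_or_dvd h1 with h | h
    · exfalso
      obtain ⟨i, hi, hai⟩ := (Prime.dvd_finsetProd_iff hpa _).mp h
      have h2 := (hirr a (Finset.mem_insert_self a s)).associated_of_dvd
        (hirr i (Finset.mem_insert_of_mem hi)) hai
      have h3 := eq_of_monic_of_associated (hm a (Finset.mem_insert_self a s))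
        (hm i (Finset.mem_insert_of_mem hi)) h2
      have h4 := hinj a (Finset.mem_insert_self a s) i (Finset.mem_insert_of_mem hi) h3
      exact ha (h4 ▸ hi)
    · obtain ⟨r, hr⟩ := h
      rw [Finset.prod_insert ha]
      exact ⟨r, by rw [hg, hr]; ring⟩

/-- the coefficient before the last one of a shifted polynomial -/
theorem coeff_taylor_pred {R : Type*} [CommRing R] {f : R[X]} (hf : f.Monic)
    (hn : 1 ≤ f.natDegree) (r : R) :
    (taylor r f).coeff (f.natDegree - 1) = f.coeff (f.natDegree - 1) + f.natDegree * r := by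
  rw [taylor_coeff]
  have h1 : (hasseDeriv (f.natDegree - 1) f).natDegree ≤ 1 := by
    refine (natDegree_hasseDeriv_le _ _).trans ?_
    omega
  obtain ⟨a, b, hab⟩ := exists_eq_X_add_C_of_natDegree_le_one h1
  have h0 : (hasseDeriv (f.natDegree - 1) f).coeff 0 = b := by rw [hab]; simp
  have h2 : (hasseDeriv (f.natDegree - 1) f).coeff 1 = a := by rw [hab]; simp
  rw [hasseDeriv_coeff] at h0 h2
  rw [zero_add, Nat.choose_self, Nat.cast_one, one_mul] at h0
  rw [show 1 + (f.natDegree - 1) = f.natDegree by omega, hf.coeff_natDegree, mul_one,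
    Nat.choose_symm_of_eq_add (show f.natDegree = (f.natDegree - 1) + 1 by omega),
    Nat.choose_one_right] at h2
  rw [hab, ← h0, ← h2]
  simp
  ring

theorem hik (hHIQ : T_HIQ) : T_HIK := by
  classical
  intro K hKfin Ψ hm hirr hK M₀
  -- the polynomial over K
  have hlift : Ψ ∈ lifts (mapRingHom (algebraMap K Qb)) := by
    rw [lifts_iff_coeff_lifts]
    intro i
    have : Ψ.coeff i ∈ lifts (algebraMap K Qb) := by
      rw [lifts_iff_coeff_lifts]
      intro j
      exact ⟨⟨_, hK i j⟩, rfl⟩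
    rw [mem_lifts] at this
    exact this
  obtain ⟨ΨK, hΨK, hdeg, hΨKm⟩ := lifts_and_natDegree_eq_and_monic hlift hm
  obtain ⟨γ, hγ⟩ := Field.exists_primitive_element ℚ K
  have hE : 1 ≤ ΨK.natDegree := by
    rw [hdeg]
    by_contra hlt
    have h0 : Ψ.natDegree = 0 := by omega
    have h1 := hm.natDegree_eq_zero.mp h0
    rw [h1] at hirr
    exact hirr.not_isUnit isUnit_one
  have hE0 : (ΨK.natDegree : K) ≠ 0 := by exact_mod_cast (by omega : ΨK.natDegree ≠ 0)
  obtain ⟨β, hβ⟩ : ∃ β : K, β = (γ - (ΨK.coeff (ΨK.natDegree - 1)).coeff 0) / ΨK.natDegree :=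
    ⟨_, rfl⟩
  obtain ⟨PK, hPK⟩ : ∃ PK : Polynomial (Polynomial K), PK = taylor (C β) ΨK := ⟨_, rfl⟩
  have hPKm : PK.Monic := by
    rw [hPK, Monic, leadingCoeff_taylor]
    exact hΨKm
  have hPKc : (PK.coeff (ΨK.natDegree - 1)).coeff 0 = γ := by
    rw [hPK, coeff_taylor_pred hΨKm hE, coeff_add, hβ]
    have h1 : ((ΨK.natDegree : Polynomial K) * C ((γ - (ΨK.coeff (ΨK.natDegree - 1)).coeff 0) /
        ΨK.natDegree)).coeff 0 = ΨK.natDegree * ((γ - (ΨK.coeff (ΨK.natDegree - 1)).coeff 0) /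
        ΨK.natDegree) := by
      rw [← C_eq_natCast, ← C_mul, coeff_C_zero]
    rw [h1, mul_div_cancel₀ _ hE0]
    ring
  -- the conjugates
  obtain ⟨P, hP⟩ : ∃ P : (K →ₐ[ℚ] Qb) → Polynomial (Polynomial Qb),
      P = fun τ : K →ₐ[ℚ] Qb => PK.map (mapRingHom (τ : K →+* Qb)) := ⟨_, rfl⟩
  have hPm : ∀ τ, (P τ).Monic := by
    intro τ
    rw [hP]
    exact hPKm.map _
  have hPinj : ∀ τ τ', P τ = P τ' → τ = τ' := by
    intro τ τ' h
    have h1 := congrArg (fun f : Polynomial (Polynomial Qb) =>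
      (f.coeff (ΨK.natDegree - 1)).coeff 0) h
    simp only [hP, coeff_map, coe_mapRingHom, hPKc] at h1
    have h2 : ∀ x : K, τ x = τ' x := by
      intro x
      have hx : x ∈ IntermediateField.adjoin ℚ {γ} := by
        rw [hγ]
        exact IntermediateField.mem_top
      have h3 : IntermediateField.adjoin ℚ {γ} ≤ (AlgHom.equalizer τ τ').toIntermediateField
          (fun x hx => by
            rw [AlgHom.mem_equalizer] at hx ⊢
            rw [map_inv₀, map_inv₀, hx]) := by
        rw [IntermediateField.adjoin_le_iff]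
        intro y hy
        rw [Set.mem_singleton_iff] at hy
        rw [hy]
        exact h1
      exact h3 hx
    exact AlgHom.ext h2
  obtain ⟨ι, hι⟩ : ∃ ι : K →ₐ[ℚ] Qb, ι = K.val := ⟨_, rfl⟩
  have hPι : P ι = taylor (C (β : Qb)) Ψ := by
    rw [hP, hι, hPK, ← hΨK]
    simp only
    rw [map_taylor]
    simp only [coe_mapRingHom, map_C]
    rfl
  have hσP : ∀ (σ : Qb ≃ₐ[ℚ] Qb) (τ : K →ₐ[ℚ] Qb),
      (P τ).map (mapRingHom (σ : Qb →+* Qb)) = P ((σ : Qb →ₐ[ℚ] Qb).comp τ) := by
    intro σ τ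
    rw [hP]
    simp only
    rw [Polynomial.map_map, mapRingHom_comp]
    rfl
  have hext : ∀ τ : K →ₐ[ℚ] Qb, ∃ σ : Qb ≃ₐ[ℚ] Qb, (σ : Qb →ₐ[ℚ] Qb).comp ι = τ := by
    intro τ
    refine ⟨AlgEquiv.ofBijective (τ.liftNormal Qb) (AlgHom.normal_bijective ℚ Qb Qb _), ?_⟩
    apply AlgHom.ext
    intro x
    rw [hι]
    exact τ.liftNormal_commutes Qb x
  have hPirr : ∀ τ, Irreducible (P τ) := by
    intro τ
    obtain ⟨σ, hσ⟩ := hext τ
    rw [← hσ, ← hσP σ ι, hPι]
    have h1 : Irreducible (taylor (C (β : Qb)) Ψ) := by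
      have := (MulEquiv.irreducible_iff (taylorEquiv (C (β : Qb)))).mpr hirr
      exact this
    have h2 := (MulEquiv.irreducible_iff
      (mapEquiv (mapEquiv (σ : Qb ≃+* Qb)))).mpr h1
    exact h2
  -- the norm
  obtain ⟨N, hN⟩ : ∃ N : Polynomial (Polynomial Qb), N = ∏ τ, P τ := ⟨_, rfl⟩
  have hNm : N.Monic := by
    rw [hN]
    exact monic_prod_of_monic _ _ fun τ _ => hPm τ
  have hNσ : ∀ σ : Qb ≃ₐ[ℚ] Qb, N.map (mapRingHom (σ : Qb →+* Qb)) = N := by
    intro σ
    rw [hN, Polynomial.map_prod]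
    refine Finset.prod_bijective (fun τ => (σ : Qb →ₐ[ℚ] Qb).comp τ) ?_ (by simp)
      fun τ _ => hσP σ τ
    constructor
    · intro τ τ' h
      apply AlgHom.ext
      intro x
      exact σ.injective (DFunLike.congr_fun h x)
    · intro τ
      refine ⟨(σ.symm : Qb →ₐ[ℚ] Qb).comp τ, ?_⟩
      apply AlgHom.ext
      intro x
      exact σ.apply_symm_apply (τ x)
  have hNlift : N ∈ lifts (mapRingHom (algebraMap ℚ Qb)) := by
    rw [lifts_iff_coeff_lifts]
    intro i
    have : N.coeff i ∈ lifts (algebraMap ℚ Qb) := by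
      rw [lifts_iff_coeff_lifts]
      intro j
      rw [InfiniteGalois.mem_range_algebraMap_iff_fixed]
      intro σ
      have h1 := congrArg (fun f : Polynomial (Polynomial Qb) => (f.coeff i).coeff j) (hNσ σ)
      simp only [coeff_map, coe_mapRingHom] at h1
      exact h1
    rw [mem_lifts] at this
    exact this
  obtain ⟨NQ, hNQ, -, hNQm⟩ := lifts_and_natDegree_eq_and_monic hNlift hNm
  have hNQi : Irreducible NQ := by
    rw [hNQm.irreducible_iff_natDegree]
    constructor
    · intro h1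
      have h2 : N = 1 := by rw [← hNQ, h1, Polynomial.map_one]
      have h3 : P ι ∣ N := by
        rw [hN]
        exact Finset.dvd_prod_of_mem _ (Finset.mem_univ ι)
      rw [h2] at h3
      exact (hPirr ι).not_isUnit (isUnit_of_dvd_one h3)
    · intro f g hf hg hfg
      have hfgN : f.map (mapRingHom (algebraMap ℚ Qb)) * g.map (mapRingHom (algebraMap ℚ Qb)) =
          N := by
        rw [← Polynomial.map_mul, hfg, hNQ]
      have key : ∀ f g : Polynomial (Polynomial ℚ), f.Monic → g.Monic →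
          f.map (mapRingHom (algebraMap ℚ Qb)) * g.map (mapRingHom (algebraMap ℚ Qb)) = N →
          P ι ∣ f.map (mapRingHom (algebraMap ℚ Qb)) → g.natDegree = 0 := by
        intro f g hf hg hfg hdvd
        have h1 : ∀ τ, P τ ∣ f.map (mapRingHom (algebraMap ℚ Qb)) := by
          intro τ
          obtain ⟨σ, hσ⟩ := hext τ
          obtain ⟨w, hw⟩ := hdvd
          have h2 := congrArg (Polynomial.map (mapRingHom (σ : Qb →+* Qb))) hw
          rw [Polynomial.map_mul, hσP σ ι, hσ, Polynomial.map_map, mapRingHom_comp] at h2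
          have h3 : (σ : Qb →+* Qb).comp (algebraMap ℚ Qb) = algebraMap ℚ Qb := by
            apply RingHom.ext
            intro x
            exact σ.commutes x
          rw [h3] at h2
          exact ⟨_, h2⟩
        have h4 : N ∣ f.map (mapRingHom (algebraMap ℚ Qb)) := by
          rw [hN]
          exact prod_dvd_of_irreducible _ P (fun τ _ => hPm τ) (fun τ _ => hPirr τ)
            (fun τ _ τ' _ h => hPinj τ τ' h) _ fun τ _ => h1 τ
        have h5 := natDegree_le_of_dvd h4 (hf.map _).ne_zero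
        rw [← hfg, (hf.map _).natDegree_mul (hg.map _), hg.natDegree_map] at h5
        omega
      rcases (hPirr ι).prime.dvd_or_dvd (show P ι ∣ f.map (mapRingHom (algebraMap ℚ Qb)) *
        g.map (mapRingHom (algebraMap ℚ Qb)) by
          rw [hfgN, hN]
          exact Finset.dvd_prod_of_mem _ (Finset.mem_univ ι)) with h | h
      · right
        exact key f g hf hg hfgN h
      · left
        exact key g f hg hf (by rw [mul_comm, hfgN]) h
  -- the point
  obtain ⟨t, htM, ht⟩ := hHIQ NQ hNQm hNQi M₀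
  refine ⟨t, htM, fun ρ ρ' hρ hρ' => ?_⟩
  obtain ⟨M, hM⟩ : ∃ M : Polynomial ℚ, M = NQ.map (evalRingHom ((t : ℤ) : ℚ)) := ⟨_, rfl⟩
  rw [← hM] at ht
  have hMm : M.Monic := by
    rw [hM]
    exact hNQm.map _
  have hMmap : M.map (algebraMap ℚ Qb) = ∏ τ, (P τ).map (evalRingHom (t : Qb)) := by
    rw [← Polynomial.map_prod, ← hN, ← hNQ, hM, Polynomial.map_map, Polynomial.map_map]
    congr 1
    apply Polynomial.ringHom_ext
    · intro a
      simp
    · simp
  have hroot : ∀ x : Qb, ((P ι).map (evalRingHom (t : Qb))).eval (x - β) = 0 ↔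
      (Ψ.map (evalRingHom (t : Qb))).eval x = 0 := by
    intro x
    rw [hPι, map_taylor, taylor_eval]
    simp
  have hx := (hroot ρ).mpr hρ
  have hx' := (hroot ρ').mpr hρ'
  have hMx : ∀ x : Qb, ((P ι).map (evalRingHom (t : Qb))).eval x = 0 →
      minpoly ℚ x = M := by
    intro x hx
    symm
    apply minpoly.eq_of_irreducible_of_monic ht _ hMm
    rw [aeval_def, ← eval_map, hMmap, eval_prod]
    exact Finset.prod_eq_zero (Finset.mem_univ ι) hx
  have hconj : IsConjRoot ℚ (ρ' - β) (ρ - β : Qb) := by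
    rw [IsConjRoot, hMx _ hx, hMx _ hx']
  obtain ⟨σ, hσ⟩ := isConjRoot_iff_exists_algEquiv.mp hconj
  have hcomp : (σ : Qb →ₐ[ℚ] Qb).comp ι = ι := by
    by_contra hne
    have h1 : ((P ((σ : Qb →ₐ[ℚ] Qb).comp ι)).map (evalRingHom (t : Qb))).eval (ρ' - β) = 0 := by
      rw [← hσP σ ι, ← hσ]
      have h2 := congrArg σ hx
      rw [map_zero] at h2
      rw [← h2, eval_map, eval_map, eval₂_map]
      have h3 : (evalRingHom (t : Qb)).comp (mapRingHom (σ : Qb →+* Qb)) =
          (σ : Qb →+* Qb).comp (evalRingHom (t : Qb)) := by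
        apply Polynomial.ringHom_ext
        · intro a
          simp
        · simp
      rw [h3]
      exact (hom_eval₂ (P ι) (evalRingHom (t : Qb)) (σ : Qb →+* Qb) (ρ - β)).symm
    have hsep : (M.map (algebraMap ℚ Qb)).Separable := (ht.separable).map
    have hsq := hsep.squarefree
    have h4 : (X - C (ρ' - β : Qb)) * (X - C (ρ' - β : Qb)) ∣ M.map (algebraMap ℚ Qb) := by
      rw [hMmap]
      refine dvd_trans ?_ (Finset.prod_dvd_prod_of_subset
        {(σ : Qb →ₐ[ℚ] Qb).comp ι, ι} Finset.univ _ (Finset.subset_univ _))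
      rw [Finset.prod_pair hne]
      exact mul_dvd_mul (dvd_iff_isRoot.mpr h1) (dvd_iff_isRoot.mpr hx')
    exact not_isUnit_X_sub_C _ (hsq _ h4)
  have hfix : ∀ x : K, σ (x : Qb) = x := by
    intro x
    have := DFunLike.congr_fun hcomp x
    rw [hι] at this
    exact this
  refine ⟨AlgEquiv.ofRingEquiv (f := (σ : Qb ≃+* Qb)) (fun x => hfix x), ?_⟩
  have h5 : σ ρ = ρ' := by
    have h6 := hσ
    rw [map_sub, hfix β] at h6
    exact sub_left_injective h6
  exact h5

theorem pf_HIK (hHIZ : T_HIZ) : T_HIK := hik (hiq hHIZ)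

end Pool.Agent.H12.HIT
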