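import Pool.Agent.H18.HIT.Targets

set_option autoImplicit false

open MvPolynomial
open Pool.Agent.H12.ZD (pmap v O Res DenseOrbit NoInv)
open Pool.Agent.H18.HIT

namespace Pool.Agent.H12.HIT

variable {N : ℕ}

theorem lin_eval (y b : Fin N → ℤ) (t : ℤ) (q : MvPolynomial (Fin N) (AlgebraicClosure ℚ)) :
    (lin y b q).eval (t : AlgebraicClosure ℚ) =
      eval (fun i => ((y i + t * b i : ℤ) : AlgebraicClosure ℚ)) q := by
  have h : ((Polynomial.evalRingHom (t : AlgebraicClosure ℚ)).comp (lin y b)) =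
      eval (fun i => ((y i + t * b i : ℤ) : AlgebraicClosure ℚ)) := by
    apply MvPolynomial.ringHom_ext
    · intro r
      simp [lin]
    · intro i
      simp [lin]
      ring
  exact DFunLike.congr_fun h q

/-- number field containing finitely many numbers -/
theorem exists_numberField (S : Finset (AlgebraicClosure ℚ)) :
    ∃ K : IntermediateField ℚ (AlgebraicClosure ℚ), FiniteDimensional ℚ K ∧ ∀ x ∈ S, x ∈ K := by
  refine ⟨IntermediateField.adjoin ℚ (S : Set (AlgebraicClosure ℚ)),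
    IntermediateField.finiteDimensional_adjoin fun x _ =>
      (Algebra.IsAlgebraic.isAlgebraic (R := ℚ) x).isIntegral, fun x hx => ?_⟩
  exact IntermediateField.subset_adjoin ℚ _ hx

theorem map_eq_self (K : IntermediateField ℚ (AlgebraicClosure ℚ))
    (σ : AlgebraicClosure ℚ ≃ₐ[K] AlgebraicClosure ℚ)
    (q : MvPolynomial (Fin N) (AlgebraicClosure ℚ)) (h : ∀ m, q.coeff m ∈ K) :
    map ((σ.toRingEquiv : AlgebraicClosure ℚ ≃+* AlgebraicClosure ℚ) :
      AlgebraicClosure ℚ →+* AlgebraicClosure ℚ) q = q := by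
  ext m
  rw [coeff_map]
  exact σ.commutes ⟨q.coeff m, h m⟩

theorem eval_conj (K : IntermediateField ℚ (AlgebraicClosure ℚ))
    (σ : AlgebraicClosure ℚ ≃ₐ[K] AlgebraicClosure ℚ)
    (q : MvPolynomial (Fin N) (AlgebraicClosure ℚ)) (h : ∀ m, q.coeff m ∈ K)
    (x : Fin N → AlgebraicClosure ℚ) :
    σ (eval x q) = eval (fun i => σ (x i)) q := by
  have h1 := map_eq_self K σ q h
  have h2 : eval (fun i => σ (x i)) (map ((σ.toRingEquiv :
      AlgebraicClosure ℚ ≃+* AlgebraicClosure ℚ) :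
      AlgebraicClosure ℚ →+* AlgebraicClosure ℚ) q) = σ (eval x q) := by
    rw [eval_map]
    have := MvPolynomial.eval₂_comp_left ((σ.toRingEquiv :
      AlgebraicClosure ℚ ≃+* AlgebraicClosure ℚ) :
      AlgebraicClosure ℚ →+* AlgebraicClosure ℚ) (RingHom.id _) x q
    simp only [RingHom.comp_id] at this
    rw [show eval x q = eval₂ (RingHom.id _) x q from rfl]
    exact this.symm
  rw [h1] at h2
  exact h2.symm

/-- all the coefficients of finitely many polynomials -/
theorem exists_numberField' {ι : Type} [Finite ι]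
    (q : ι → MvPolynomial (Fin N) (AlgebraicClosure ℚ)) (S : Finset (AlgebraicClosure ℚ)) :
    ∃ T : Finset (AlgebraicClosure ℚ), S ⊆ T ∧
      ∀ K : IntermediateField ℚ (AlgebraicClosure ℚ), (∀ x ∈ T, x ∈ K) →
        ∀ i m, (q i).coeff m ∈ K := by
  classical
  have := Fintype.ofFinite ι
  refine ⟨S ∪ Finset.univ.biUnion fun i => (q i).coeffs, Finset.subset_union_left,
    fun K hK i m => ?_⟩
  by_cases hm : (q i).coeff m = 0
  · rw [hm]
    exact zero_mem K
  · apply hK
    rw [Finset.mem_union, Finset.mem_biUnion]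
    right
    exact ⟨i, Finset.mem_univ i, mem_coeffs_iff.mpr ⟨m, mem_support_iff.mpr hm, rfl⟩⟩

theorem lin_coeff_mem (K : IntermediateField ℚ (AlgebraicClosure ℚ)) (y b : Fin N → ℤ)
    (q : MvPolynomial (Fin N) (AlgebraicClosure ℚ)) (h : ∀ m, q.coeff m ∈ K) (j : ℕ) :
    (lin y b q).coeff j ∈ K := by
  have h1 : lin y b q ∈ Polynomial.lifts (algebraMap K (AlgebraicClosure ℚ)) := by
    rw [lin, AlgHom.toRingHom_eq_coe, RingHom.coe_coe, aeval_def, eval₂_eq']
    apply sum_mem
    intro m _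
    apply mul_mem
    · exact Polynomial.C_mem_lifts (algebraMap K (AlgebraicClosure ℚ)) ⟨q.coeff m, h m⟩
    · apply prod_mem
      intro i _
      apply pow_mem
      apply add_mem
      · rw [show ((y i : ℤ) : AlgebraicClosure ℚ) = algebraMap K (AlgebraicClosure ℚ) (y i) by
          rw [map_intCast]]
        exact Polynomial.C_mem_lifts _ _
      · apply mul_mem
        · rw [show ((b i : ℤ) : AlgebraicClosure ℚ) = algebraMap K (AlgebraicClosure ℚ) (b i) by
            rw [map_intCast]]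
          exact Polynomial.C_mem_lifts _ _
        · exact Polynomial.X_mem_lifts _
  rw [Polynomial.lifts_iff_coeff_lifts] at h1
  obtain ⟨u, hu⟩ := h1 j
  rw [← hu]
  exact u.2

/-- a bound for the integer roots -/
theorem exists_bound (q : Polynomial (AlgebraicClosure ℚ)) (hq : q ≠ 0) :
    ∃ M : ℕ, ∀ t : ℤ, (M : ℤ) < |t| → q.eval (t : AlgebraicClosure ℚ) ≠ 0 := by
  classical
  obtain ⟨A, hA⟩ : ∃ A : Finset ℤ, A = q.roots.toFinset.preimage
    (fun n : ℤ => (n : AlgebraicClosure ℚ)) (Int.cast_injective.injOn) := ⟨_, rfl⟩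
  refine ⟨A.sup Int.natAbs, fun t ht h => ?_⟩
  have htA : t ∈ A := by
    rw [hA, Finset.mem_preimage, Multiset.mem_toFinset, Polynomial.mem_roots hq]
    exact h
  have h1 : t.natAbs ≤ A.sup Int.natAbs := Finset.le_sup (f := Int.natAbs) htA
  rw [Int.abs_eq_natAbs] at ht
  omega

theorem pf_HIT (hPEL : T_PEL) (hBER : T_BER) (hHIK : T_HIK) : T_HIT := by
  classical
  intro N G c hG hc
  obtain ⟨θ, Φ, Δ, R, hΦm, hΦi, hΦθ, hΔ, hR⟩ := hPEL N Qb G hG
  obtain ⟨y, b, hirr, hcb⟩ := hBER N Φ (c * Δ) hΦm hΦi (mul_ne_zero hc hΔ)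
  -- the number field
  obtain ⟨T1, -, hT1⟩ := exists_numberField' G ∅
  obtain ⟨T2, hT12, hT2⟩ := exists_numberField' (fun _ : Unit => Δ) T1
  obtain ⟨T3, hT23, hT3⟩ := exists_numberField'
    (fun x : (i : Fin N) × Fin ((R i).natDegree + 1) => (R x.1).coeff x.2) T2
  obtain ⟨T4, hT34, hT4⟩ := exists_numberField'
    (fun x : Fin (Φ.natDegree + 1) => Φ.coeff x) T3
  obtain ⟨K, hKfin, hK⟩ := exists_numberField T4
  have hKG := hT1 K fun x hx => hK x (hT34 (hT23 (hT12 hx)))
  have hKΔ := hT2 K (fun x hx => hK x (hT34 (hT23 hx))) ()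
  have hKR : ∀ i j m, ((R i).coeff j).coeff m ∈ K := by
    intro i j m
    by_cases hj : j < (R i).natDegree + 1
    · exact hT3 K (fun x hx => hK x (hT34 hx)) ⟨i, ⟨j, hj⟩⟩ m
    · rw [Polynomial.coeff_eq_zero_of_natDegree_lt (by omega), coeff_zero]
      exact zero_mem K
  have hKΦ : ∀ j m, (Φ.coeff j).coeff m ∈ K := by
    intro j m
    by_cases hj : j < Φ.natDegree + 1
    · exact hT4 K hK ⟨j, hj⟩ m
    · rw [Polynomial.coeff_eq_zero_of_natDegree_lt (by omega), coeff_zero]
      exact zero_mem K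
  obtain ⟨M, hM⟩ := exists_bound (lin y b (c * Δ)) hcb
  obtain ⟨t, htM, hσ⟩ := hHIK K hKfin (Φ.map (lin y b)) (hΦm.map _) hirr
    (fun i j => by
      rw [Polynomial.coeff_map]
      exact lin_coeff_mem K y b _ (hKΦ i) j) M
  have ht := hM t htM
  rw [lin_eval, map_mul] at ht
  have htc := left_ne_zero_of_mul ht
  have htΔ := right_ne_zero_of_mul ht
  refine ⟨fun i => y i + t * b i, htc, fun P P' hP hP' => ?_⟩
  replace hP : ∀ i, eval P (G i) = ((y i + t * b i : ℤ) : AlgebraicClosure ℚ) :=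
    fun i => congrFun hP i
  replace hP' : ∀ i, eval P' (G i) = ((y i + t * b i : ℤ) : AlgebraicClosure ℚ) :=
    fun i => congrFun hP' i
  have hev : ∀ (Q : Fin N → AlgebraicClosure ℚ),
      (∀ i, eval Q (G i) = ((y i + t * b i : ℤ) : AlgebraicClosure ℚ)) →
      ∀ q : MvPolynomial (Fin N) (AlgebraicClosure ℚ), eval Q (aeval G q) =
        eval (fun i => ((y i + t * b i : ℤ) : AlgebraicClosure ℚ)) q := by
    intro Q hQ q
    have h : ((eval Q).comp (aeval G).toRingHom) =
        eval (fun i => ((y i + t * b i : ℤ) : AlgebraicClosure ℚ)) := by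
      apply MvPolynomial.ringHom_ext
      · intro r
        simp
      · intro i
        simpa using hQ i
    exact DFunLike.congr_fun h q
  have hev2 : ∀ (Q : Fin N → AlgebraicClosure ℚ),
      (∀ i, eval Q (G i) = ((y i + t * b i : ℤ) : AlgebraicClosure ℚ)) →
      ∀ q : Polynomial (MvPolynomial (Fin N) (AlgebraicClosure ℚ)),
        eval Q (ev2 G θ q) =
        (q.map (eval (fun i => ((y i + t * b i : ℤ) : AlgebraicClosure ℚ)))).eval
          (eval Q θ) := by
    intro Q hQ q
    rw [ev2, Polynomial.hom_eval₂, Polynomial.eval_map]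
    congr 1
    exact RingHom.ext (hev Q hQ)
  have hmap : (Φ.map (lin y b)).map (Polynomial.evalRingHom (t : AlgebraicClosure ℚ)) =
      Φ.map (eval (fun i => ((y i + t * b i : ℤ) : AlgebraicClosure ℚ))) := by
    rw [Polynomial.map_map]
    congr 1
    exact RingHom.ext fun q => lin_eval y b t q
  rw [hmap] at hσ
  obtain ⟨σ, hσ⟩ := hσ (eval P θ) (eval P' θ)
    (by rw [← hev2 P hP, hΦθ, map_zero]) (by rw [← hev2 P' hP', hΦθ, map_zero])
  refine ⟨σ.toRingEquiv, fun i => map_eq_self K σ (G i) (hKG i), fun i => ?_⟩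
  have e1 := congrArg (eval P) (hR i)
  have e2 := congrArg (eval P') (hR i)
  rw [hev2 P hP, map_mul, hev P hP, eval_X] at e1
  rw [hev2 P' hP', map_mul, hev P' hP', eval_X] at e2
  have hz : ∀ q : MvPolynomial (Fin N) (AlgebraicClosure ℚ), (∀ m, q.coeff m ∈ K) →
      σ (eval (fun i => ((y i + t * b i : ℤ) : AlgebraicClosure ℚ)) q) =
        eval (fun i => ((y i + t * b i : ℤ) : AlgebraicClosure ℚ)) q := by
    intro q hq
    rw [eval_conj K σ q hq]
    congr 1
    congr 1
    funext i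
    exact map_intCast σ _
  have e3 := congrArg σ e1
  rw [map_mul, hz Δ hKΔ] at e3
  have e4 : σ (((R i).map (eval (fun i => ((y i + t * b i : ℤ) : AlgebraicClosure ℚ)))).eval
      (eval P θ)) = ((R i).map (eval (fun i => ((y i + t * b i : ℤ) :
        AlgebraicClosure ℚ)))).eval (eval P' θ) := by
    rw [Polynomial.eval_eq_sum_range, Polynomial.eval_eq_sum_range, map_sum]
    refine Finset.sum_congr rfl fun j _ => ?_
    rw [map_mul, map_pow, hσ, Polynomial.coeff_map, hz _ (hKR i j)]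
  rw [e4, ← e2] at e3
  exact mul_left_cancel₀ htΔ e3

end Pool.Agent.H12.HIT
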