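import Pool.Agent.H18.HIT.Targets

set_option autoImplicit false

open MvPolynomial
open Pool.Agent.H12.ZD (pmap v O Res DenseOrbit NoInv)
open Pool.Agent.H18.HIT

namespace Pool.Agent.H12.HIT

/-- a primitive element which is integral -/
theorem exists_theta {S R : Type} [CommRing S] [IsDomain S] [CommRing R] [IsDomain R]
    [Algebra S R] [FaithfulSMul S R] [IsIntegrallyClosed R] [Algebra.IsAlgebraic S R]
    [CharZero S] {N : ℕ} (x : Fin N → R) :
    ∃ θ : R, IsIntegral S θ ∧ ∃ Δ : S, Δ ≠ 0 ∧ ∃ P : Fin N → Polynomial S,
      ∀ i, algebraMap S R Δ * x i = Polynomial.aeval θ (P i) := by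
  classical
  let L := FractionRing R
  have hinjSR : Function.Injective (algebraMap S R) := FaithfulSMul.algebraMap_injective S R
  have hinjRL : Function.Injective (algebraMap R L) := IsFractionRing.injective R L
  have hinjSL : Function.Injective (algebraMap S L) := by
    rw [IsScalarTower.algebraMap_eq S R L]
    exact hinjRL.comp hinjSR
  have : FaithfulSMul S L := (faithfulSMul_iff_algebraMap_injective S L).mpr hinjSL
  let _ : Algebra (FractionRing S) L := FractionRing.liftAlgebra S L
  have : IsScalarTower S (FractionRing S) L := FractionRing.isScalarTower_liftAlgebra S L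
  have : CharZero (FractionRing S) :=
    charZero_of_injective_algebraMap (IsFractionRing.injective S (FractionRing S))
  have hxalg : ∀ r : R, IsAlgebraic (FractionRing S) (algebraMap R L r) := by
    intro r
    have h1 : IsAlgebraic S r := Algebra.IsAlgebraic.isAlgebraic r
    have h2 : IsAlgebraic S (algebraMap R L r) := h1.algebraMap
    exact h2.extendScalars (IsFractionRing.injective S (FractionRing S))
  let M := IntermediateField.adjoin (FractionRing S) (Set.range fun i => algebraMap R L (x i))
  have hfin : FiniteDimensional (FractionRing S) M := by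
    have : Finite (Set.range fun i => algebraMap R L (x i)) := inferInstance
    apply IntermediateField.finiteDimensional_adjoin
    rintro y ⟨i, rfl⟩
    exact (hxalg (x i)).isIntegral
  obtain ⟨θ₀, hθ₀⟩ := Field.exists_primitive_element (FractionRing S) M
  have hθ₀alg : IsAlgebraic S (θ₀ : L) := by
    have h1 : IsAlgebraic (FractionRing S) θ₀ := Algebra.IsAlgebraic.isAlgebraic θ₀
    have h2 : IsAlgebraic (FractionRing S) (θ₀ : L) := h1.algebraMap
    exact (IsFractionRing.isAlgebraic_iff S (FractionRing S) L).mpr h2
  obtain ⟨s, hs0, hs⟩ := hθ₀alg.exists_integral_multiple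
  have hsR : IsIntegral R (s • (θ₀ : L)) := hs.tower_top
  obtain ⟨θ, hθ⟩ := IsIntegrallyClosed.isIntegral_iff.mp hsR
  have hθint : IsIntegral S θ := by
    rw [← isIntegral_algebraMap_iff hinjRL, hθ]
    exact hs
  refine ⟨θ, hθint, ?_⟩
  -- every x i is a polynomial in θ
  have hθF : IsIntegral (FractionRing S) (algebraMap R L θ) := by
    rw [hθ]
    exact hs.tower_top
  have hmem : ∀ i, algebraMap R L (x i) ∈
      IntermediateField.adjoin (FractionRing S) {algebraMap R L θ} := by
    intro i
    have h1 : algebraMap R L (x i) ∈ M := IntermediateField.subset_adjoin _ _ ⟨i, rfl⟩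
    have h2 : (⟨algebraMap R L (x i), h1⟩ : M) ∈
        IntermediateField.adjoin (FractionRing S) {θ₀} := by
      rw [hθ₀]
      exact IntermediateField.mem_top
    have h3 : IntermediateField.adjoin (FractionRing S) {(θ₀ : L)} ≤
        IntermediateField.adjoin (FractionRing S) {algebraMap R L θ} := by
      rw [IntermediateField.adjoin_simple_le_iff]
      have h4 : (θ₀ : L) = (algebraMap S (FractionRing S) s)⁻¹ • (algebraMap R L θ) := by
        rw [hθ, ← algebraMap_smul (FractionRing S) s (θ₀ : L), smul_smul, inv_mul_cancel₀,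
          one_smul]
        intro h0
        exact hs0 ((IsFractionRing.injective S (FractionRing S)) (by rw [h0, map_zero]))
      rw [h4]
      exact IntermediateField.smul_mem _ (IntermediateField.mem_adjoin_simple_self _ _)
    apply h3
    have h5 := (IntermediateField.mem_adjoin_simple_iff (FractionRing S) _).mp h2
    obtain ⟨r, t, hrt⟩ := h5
    rw [IntermediateField.mem_adjoin_simple_iff]
    refine ⟨r, t, ?_⟩
    have h6 := congrArg (algebraMap M L) hrt
    rw [map_div₀] at h6
    rw [show algebraMap M L (⟨algebraMap R L (x i), h1⟩ : M) = algebraMap R L (x i) from rfl] at h6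
    rw [h6, ← Polynomial.aeval_algebraMap_apply, ← Polynomial.aeval_algebraMap_apply]
    rfl
  have hpol : ∀ i, ∃ (b : S) (P : Polynomial S), b ≠ 0 ∧
      algebraMap S R b * x i = Polynomial.aeval θ P := by
    intro i
    have h1 := hmem i
    rw [← IntermediateField.mem_toSubalgebra,
      IntermediateField.adjoin_simple_toSubalgebra_of_isAlgebraic hθF.isAlgebraic,
      Algebra.adjoin_singleton_eq_range_aeval] at h1
    obtain ⟨p, hp⟩ := h1
    obtain ⟨b, hb, hbp⟩ := IsLocalization.integerNormalization_spec (nonZeroDivisors S) p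
    refine ⟨b, IsLocalization.integerNormalization (nonZeroDivisors S) p,
      nonZeroDivisors.ne_zero hb, ?_⟩
    apply hinjRL
    rw [map_mul, ← Polynomial.aeval_algebraMap_apply, ← IsScalarTower.algebraMap_apply,
      ← Polynomial.aeval_map_algebraMap (FractionRing S), hbp]
    rw [← algebraMap_smul (FractionRing S) b p, map_smul]
    have h2 : (Polynomial.aeval (algebraMap R L θ)) p = algebraMap R L (x i) := hp
    rw [h2, algebraMap_smul, Algebra.smul_def]
  choose b P hb hP using hpol
  refine ⟨∏ i, b i, Finset.prod_ne_zero_iff.mpr fun i _ => hb i,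
    fun i => Polynomial.C (∏ j ∈ Finset.univ.erase i, b j) * P i, fun i => ?_⟩
  rw [map_mul, Polynomial.aeval_C, ← hP i, ← mul_assoc, ← map_mul,
    Finset.prod_erase_mul _ _ (Finset.mem_univ i)]


theorem pf_PEL : T_PEL := by
  classical
  intro N k _ _ G hG
  have hai : AlgebraicIndependent k G := hG
  let S := Algebra.adjoin k (Set.range G)
  let e : Po N k ≃ₐ[k] S := hai.aevalEquiv
  have he : ∀ q, ((e q : S) : Po N k) = aeval G q := fun q => hai.algebraMap_aevalEquiv q
  have htb : IsTranscendenceBasis k G := by
    apply AlgebraicIndependent.isTranscendenceBasis_of_trdeg_le_of_finite hai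
    rw [MvPolynomial.trdeg_of_isDomain]
    simp
  have halg : Algebra.IsAlgebraic S (Po N k) := htb.isAlgebraic
  have : IsIntegrallyClosed S := IsIntegrallyClosed.of_equiv e.toRingEquiv
  have : CharZero S := charZero_of_injective_algebraMap (FaithfulSMul.algebraMap_injective k S)
  obtain ⟨θ, hθ, Δ, hΔ, P, hP⟩ := exists_theta (S := S) (fun i : Fin N => (X i : Po N k))
  have hsymm : ∀ s : S, aeval G (e.symm s) = (s : Po N k) := by
    intro s
    rw [← he, AlgEquiv.apply_symm_apply]
  have hev : ∀ q : Polynomial S, ev2 G θ (q.map (e.symm : S →+* Po N k)) =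
      Polynomial.aeval θ q := by
    intro q
    rw [ev2, Polynomial.eval₂_map, Polynomial.aeval_def]
    congr 1
    apply RingHom.ext
    intro s
    exact hsymm s
  refine ⟨θ, (minpoly S θ).map (e.symm : S →+* Po N k), e.symm Δ,
    fun i => (P i).map (e.symm : S →+* Po N k), ⟨(minpoly.monic hθ).map _, ?_, ?_, ?_, ?_⟩⟩
  · have h1 : Irreducible (minpoly S θ) := minpoly.irreducible hθ
    exact (MulEquiv.irreducible_iff (Polynomial.mapEquiv e.symm.toRingEquiv)).mpr h1
  · rw [hev, minpoly.aeval]
  · intro h
    exact hΔ (e.symm.injective (by rw [h, map_zero]))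
  · intro i
    rw [hev, hsymm, ← hP i]
    rfl

end Pool.Agent.H12.HIT
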